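import Pool.Agent.Helper70.OB.Goals

/-! Project OB (MP_91ee6f_gt): proof of the goal `WDER`. -/

open MeasureTheory Set Metric Filter
open scoped ENNReal Topology
open Pool.Agent.Helper70.MM (om om_zero om_one om_rel om_pos om_hasDerivAt om_le om_measurable)

namespace Pool.Agent.Helper67.OB

open Pool.Agent.Helper70.OB

/-- derivative of `V / ω_l` -/
lemma quot_der (l : ℕ) (V P : ℝ → ℝ) (r : ℝ) (hr : 0 < r)
    (hV : HasDerivAt V (P r / r ^ (2 * l)) r) :
    HasDerivAt (fun r => V r / om l r)
      ((om l r * P r + V r * (r ^ (2 * l + 1) * om (l + 1) r)) / (r ^ (2 * l) * om l r ^ 2)) r := by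
  have hK := om_hasDerivAt l hr
  have hpos := om_pos l hr
  have h := hV.div hK hpos.ne'
  have h2 : HasDerivAt (fun r => V r / om l r)
      ((P r / r ^ (2 * l) * om l r - V r * -(r * om (l + 1) r)) / om l r ^ 2) r := h
  refine h2.congr_deriv ?_
  have hr' : r ≠ 0 := hr.ne'
  have hp' : om l r ≠ 0 := hpos.ne'
  field_simp
  ring

/-- derivative of `ω_l P + V r^(2l+1) ω_{l+1}` -/
lemma ww_der (l : ℕ) (V P : ℝ → ℝ) (P' r : ℝ) (hr : 0 < r)
    (hV : HasDerivAt V (P r / r ^ (2 * l)) r) (hP : HasDerivAt P P' r) :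
    HasDerivAt (fun r => om l r * P r + V r * (r ^ (2 * l + 1) * om (l + 1) r))
      (om l r * P' - V r * (r ^ (2 * l) * om l r)) r := by
  have hK := om_hasDerivAt l hr
  have hK1 := om_hasDerivAt (l + 1) hr
  have hpow := hasDerivAt_pow (2 * l + 1) r
  have h := (hK.mul hP).add (hV.mul (hpow.mul hK1))
  have h2 : HasDerivAt (fun r => om l r * P r + V r * (r ^ (2 * l + 1) * om (l + 1) r))
      (-(r * om (l + 1) r) * P r + om l r * P' +
        (P r / r ^ (2 * l) * (r ^ (2 * l + 1) * om (l + 1) r) +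
          V r * (((2 * l + 1 : ℕ) : ℝ) * r ^ (2 * l + 1 - 1) * om (l + 1) r +
            r ^ (2 * l + 1) * -(r * om (l + 1 + 1) r)))) r := h
  refine h2.congr_deriv ?_
  have hr' : r ≠ 0 := hr.ne'
  have hrel := om_rel l hr
  have e1 : P r / r ^ (2 * l) * (r ^ (2 * l + 1) * om (l + 1) r) = P r * (r * om (l + 1) r) := by
    rw [pow_succ]
    field_simp
  have e2 : ((2 * l + 1 : ℕ) : ℝ) * r ^ (2 * l + 1 - 1) * om (l + 1) r +
      r ^ (2 * l + 1) * -(r * om (l + 1 + 1) r) = -(r ^ (2 * l) * om l r) := by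
    have e3 : r ^ (2 * l + 1) * -(r * om (l + 1 + 1) r) =
        -(r ^ (2 * l) * (r ^ 2 * om (l + 2) r)) := by
      rw [show l + 1 + 1 = l + 2 from rfl]
      ring
    rw [e3, hrel, Nat.add_sub_cancel]
    push_cast
    ring
  rw [e1, e2]
  ring

/-- growth of a primitive -/
lemma prim_growth (N : ℕ) (f : ℝ → ℝ) (C : ℝ) (hC : 0 ≤ C)
    (hint : ∀ r : ℝ, 0 < r → IntervalIntegrable f volume 0 r)
    (hb : ∀ u : ℝ, 1 ≤ u → |f u| ≤ C * u ^ N) :
    ∃ A : ℝ, 0 ≤ A ∧ ∀ r : ℝ, 1 ≤ r → |∫ u in (0 : ℝ)..r, f u| ≤ A + C * r ^ (N + 1) := by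
  refine ⟨|∫ u in (0 : ℝ)..1, f u|, abs_nonneg _, fun r hr => ?_⟩
  have h01 : IntervalIntegrable f volume 0 1 := hint 1 one_pos
  have h0r : IntervalIntegrable f volume 0 r := hint r (by linarith)
  have h1r : IntervalIntegrable f volume 1 r := h01.symm.trans h0r
  rw [← intervalIntegral.integral_add_adjacent_intervals h01 h1r]
  refine (abs_add_le _ _).trans (add_le_add le_rfl ?_)
  have h : ‖∫ u in (1 : ℝ)..r, f u‖ ≤ C * r ^ N * |r - 1| := by
    refine intervalIntegral.norm_integral_le_of_norm_le_const fun u hu => ?_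
    rw [uIoc_of_le hr] at hu
    rw [Real.norm_eq_abs]
    refine (hb u hu.1.le).trans ?_
    exact mul_le_mul_of_nonneg_left (pow_le_pow_left₀ (by linarith [hu.1]) hu.2 N) hC
  rw [Real.norm_eq_abs] at h
  refine h.trans ?_
  rw [abs_of_nonneg (by linarith), pow_succ, mul_assoc]
  refine mul_le_mul_of_nonneg_left ?_ hC
  exact mul_le_mul_of_nonneg_left (by linarith) (by positivity)

/-- a function bounded by polynomial times exponential tends to zero -/
lemma tendsto_of_bd (g : ℝ → ℝ) (A B : ℝ) (N : ℕ)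
    (h : ∀ r : ℝ, 1 ≤ r → |g r| ≤ (A + B * r ^ N) * Real.exp (-r)) :
    Tendsto g atTop (𝓝 0) := by
  have h1 : Tendsto (fun r : ℝ => (A + B * r ^ N) * Real.exp (-r)) atTop (𝓝 0) := by
    have a1 := (Real.tendsto_pow_mul_exp_neg_atTop_nhds_zero 0).const_mul A
    have a2 := (Real.tendsto_pow_mul_exp_neg_atTop_nhds_zero N).const_mul B
    have a3 := a1.add a2
    simp only [mul_zero, add_zero] at a3
    refine a3.congr fun r => ?_
    ring
  refine squeeze_zero_norm' ?_ h1
  filter_upwards [eventually_ge_atTop (1 : ℝ)] with r hr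
  rw [Real.norm_eq_abs]
  exact h r hr

theorem wder : OMI → BAS → WDER := by
  intro hOMI hBAS k V P m hc
  obtain ⟨hcont, hlow, htop, hconst⟩ := hBAS k V P m hc
  obtain ⟨l, rfl⟩ : ∃ l, k = l + 1 := ⟨k - 1, by have := hc.two_le; omega⟩
  have hl1 : l + 1 - 1 = l := by omega
  have hl2 : 2 * (l + 1) - 2 = 2 * l := by omega
  have hl3 : 2 * (l + 1) - 1 = 2 * l + 1 := by omega
  have hWW : ∀ j, WW (l + 1) V P j =
      fun r => om l r * P j r + V j r * (r ^ (2 * l + 1) * om (l + 1) r) := by
    intro j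
    funext r
    simp only [WW, hl1, hl3]
  refine ⟨?_, ?_, ?_⟩
  · intro j hj r hr
    obtain ⟨hV, hP⟩ := hlow j hj r hr
    rw [hl2] at hV hP
    rw [hWW j]
    simp only [hl1, hl2]
    refine ⟨quot_der l (V j) (P j) r hr hV, ?_⟩
    refine (ww_der l (V j) (P j) _ r hr hV hP).congr_deriv ?_
    ring
  · intro a b ha hm r hr
    obtain ⟨hV, hP⟩ := hconst a b ha hm r hr
    have hr0 : 0 < r := lt_of_le_of_lt ha hr.1
    rw [hl1, hl2] at hV hP
    simp only [hl1, hl2]
    rw [hWW l]
    refine ⟨quot_der l (V l) (P l) r hr0 hV, ?_⟩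
    refine (ww_der l (V l) (P l) _ r hr0 hV hP).congr_deriv ?_
    ring
  · intro j hj
    have hom := (hOMI (2 * (l + 1) - 1) (l + 1) hc.two_le (by omega)).2.2.2
    obtain ⟨C1, hC1⟩ := hom l
    obtain ⟨C2, hC2⟩ := hom (l + 1)
    have hC1' : 0 ≤ C1 := by
      have h1 := hC1 1 le_rfl
      have h2 := om_pos l (one_pos)
      have h3 := Real.exp_pos (-1)
      by_contra hneg
      have : C1 * Real.exp (-1) < 0 := mul_neg_of_neg_of_pos (not_le.mp hneg) h3
      linarith
    have hC2' : 0 ≤ C2 := by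
      have h1 := hC2 1 le_rfl
      have h2 := om_pos (l + 1) (one_pos)
      have h3 := Real.exp_pos (-1)
      by_contra hneg
      have : C2 * Real.exp (-1) < 0 := mul_neg_of_neg_of_pos (not_le.mp hneg) h3
      linarith
    -- bounds for `V`
    have hVb : ∀ i < l + 1, ∃ D : ℝ, 0 ≤ D ∧ ∀ r : ℝ, 1 ≤ r → |V i r| ≤ D := by
      intro i hi
      obtain ⟨C, hC⟩ := hc.bdd i hi
      refine ⟨max C 1, le_max_of_le_right zero_le_one, fun r hr => ?_⟩
      rw [abs_le]
      have h1 := hc.ge i hi r (by linarith)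
      have h2 := hC r hr
      constructor
      · have := le_max_right C 1
        linarith
      · exact h2.trans (le_max_left _ _)
    -- bounds for `P`
    have hPb : ∃ A B : ℝ, 0 ≤ A ∧ 0 ≤ B ∧ ∀ r : ℝ, 1 ≤ r → |P j r| ≤ A + B * r ^ (2 * l + 1) := by
      by_cases hjl : j + 1 < l + 1
      · obtain ⟨D, hD0, hD⟩ := hVb j hj
        obtain ⟨D', hD0', hD'⟩ := hVb (j + 1) hjl
        obtain ⟨A, hA0, hA⟩ := prim_growth (2 * l)
          (fun u => u ^ (2 * l) * (V j u - V (j + 1) u)) (D + D') (by linarith) (by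
            intro r hr
            have h1 := hc.int j hj r hr
            have h2 := hc.int (j + 1) hjl r hr
            rw [hl2] at h1 h2
            refine (h1.sub h2).congr ?_
            exact fun u _ => by ring) (by
            intro u hu
            rw [abs_mul, abs_of_nonneg (by positivity : (0 : ℝ) ≤ u ^ (2 * l)), mul_comm]
            refine mul_le_mul_of_nonneg_right ?_ (by positivity)
            refine (abs_sub _ _).trans ?_
            exact add_le_add (hD u hu) (hD' u hu))
        refine ⟨A, D + D', hA0, by linarith, fun r hr => ?_⟩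
        rw [hc.flux j hjl r (by linarith), hl2]
        exact hA r hr
      · have hjl' : j = l := by omega
        obtain ⟨D, hD0, hD⟩ := hVb l (by omega)
        obtain ⟨E, hE⟩ := hc.mbdd
        obtain ⟨A, hA0, hA⟩ := prim_growth (2 * l)
          (fun u => u ^ (2 * l) * (V l u + 1)) (D + 1) (by linarith) (by
            intro r hr
            have h1 := hc.int l (by omega) r hr
            rw [hl2] at h1
            have h2 : IntervalIntegrable (fun u : ℝ => u ^ (2 * l)) volume 0 r :=
              (continuous_pow _).intervalIntegrable _ _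
            refine (h1.add h2).congr ?_
            exact fun u _ => by ring) (by
            intro u hu
            rw [abs_mul, abs_of_nonneg (by positivity : (0 : ℝ) ≤ u ^ (2 * l)), mul_comm]
            refine mul_le_mul_of_nonneg_right ?_ (by positivity)
            refine (abs_add_le _ _).trans ?_
            rw [abs_one]
            exact add_le_add (hD u hu) le_rfl)
        have hE0 : 0 ≤ E := (hc.nonneg 1).trans (hE 1)
        refine ⟨A + E, D + 1, by linarith, by linarith, fun r hr => ?_⟩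
        have ht := hc.top r (by linarith)
        rw [hl1, hl2] at ht
        rw [hjl', ht]
        refine (abs_sub _ _).trans ?_
        have h1 := hA r hr
        have h2 : |m r| ≤ E := by
          rw [abs_of_nonneg (hc.nonneg r)]
          exact hE r
        linarith
    obtain ⟨A, B, hA0, hB0, hPB⟩ := hPb
    obtain ⟨D, hD0, hD⟩ := hVb j hj
    rw [hWW j]
    refine tendsto_of_bd _ (C1 * A) (C1 * B + D * C2) (2 * l + 1) fun r hr => ?_
    have hr0 : 0 < r := by linarith
    refine (abs_add_le _ _).trans ?_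
    have h1 : |om l r * P j r| ≤ (C1 * Real.exp (-r)) * (A + B * r ^ (2 * l + 1)) := by
      rw [abs_mul, abs_of_pos (om_pos l hr0)]
      exact mul_le_mul (hC1 r hr) (hPB r hr) (abs_nonneg _) (by positivity)
    have h2 : |V j r * (r ^ (2 * l + 1) * om (l + 1) r)| ≤
        D * (r ^ (2 * l + 1) * (C2 * Real.exp (-r))) := by
      rw [abs_mul, abs_of_pos (mul_pos (by positivity) (om_pos (l + 1) hr0))]
      refine mul_le_mul (hD r hr) ?_ (mul_nonneg (by positivity) (om_pos (l + 1) hr0).le) hD0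
      exact mul_le_mul_of_nonneg_left (hC2 r hr) (by positivity)
    refine (add_le_add h1 h2).trans (le_of_eq ?_)
    ring

end Pool.Agent.Helper67.OB
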